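import Pool.Agent.Q299.HD.REAL

/-!
# Project HD, job CNT: counting

Proof by helper299.
-/

set_option autoImplicit false

namespace Pool.Agent.Q299.HD

open Pool.Agent.Q274.HD
open scoped Matrix

theorem act_mul (ρ : Rep) (σ τ : GQ) (v : V2) : act ρ (σ * τ) v = act ρ σ (act ρ τ v) := by
  funext i
  have h : ∀ k, ((∑ j, ρ σ i j * ρ τ j k : ℤ_[2]) : ℚ_[2]) =
      ∑ j, ((ρ σ i j : ℤ_[2]) : ℚ_[2]) * ((ρ τ j k : ℤ_[2]) : ℚ_[2]) := by
    intro k
    have h1 := map_sum PadicInt.Coe.ringHom (fun j => ρ σ i j * ρ τ j k) (Finset.univ : Finset (Fin 2))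
    simp only [map_mul] at h1
    exact h1
  simp only [act, map_mul, Matrix.mul_apply, h]
  simp only [Finset.sum_mul, Finset.mul_sum]
  rw [Finset.sum_comm]
  refine Finset.sum_congr rfl fun k _ => Finset.sum_congr rfl fun j _ => ?_
  ring

theorem act_sub (ρ : Rep) (σ : GQ) (v v' : V2) : act ρ σ (v - v') = act ρ σ v - act ρ σ v' := by
  funext i
  simp only [act, Pi.sub_apply, mul_sub, Finset.sum_sub_distrib]

/-- coboundaries are Selmer cocycles -/
theorem cob_sel {ρ : Rep} (hρ : Continuous ρ) (w : Ideal ZB) (f : T2) (y : V2) :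
    IsSel ρ w f fun σ => act ρ σ y - y := by
  refine ⟨?_, fun σ τ => ?_, fun Q _ _ => ⟨y, fun σ _ => rfl⟩, ⟨y, fun σ _ => rfl⟩⟩
  · have h1 : Continuous fun σ => act ρ σ y := by
      refine continuous_pi fun i => ?_
      simp only [act]
      refine continuous_finsetSum _ fun j _ => ?_
      have h2 : Continuous fun σ => ρ σ i j := (continuous_apply_apply i j).comp hρ
      exact (continuous_subtype_val.comp h2).mul continuous_const
    exact h1.sub continuous_const
  · rw [act_mul, act_sub]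
    abel

/-- half of the coboundary of an integral vector -/
theorem half_sel {ρ : Rep} (hρ : Continuous ρ) (w : Ideal ZB) (f : T2) {t : T2} {u : GQ → T2}
    (hu : ∀ σ, ρ σ *ᵥ t = t + (2 : ℤ_[2]) • u σ) : IsI ρ w f u := by
  have h1 := cob_sel hρ w f ((1 / 2 : ℚ_[2]) • toV t)
  have h2 : (fun σ => act ρ σ ((1 / 2 : ℚ_[2]) • toV t) - (1 / 2 : ℚ_[2]) • toV t) =
      fun σ => toV (u σ) := by
    funext σ
    rw [act_smul, act_toV, hu σ, toV_add, ← smul_sub, add_sub_cancel_left]
    funext i
    simp only [toV, Pi.smul_apply, smul_eq_mul]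
    have h3 : (((2 : ℤ_[2]) * u σ i : ℤ_[2]) : ℚ_[2]) = 2 * ((u σ i : ℤ_[2]) : ℚ_[2]) := by
      push_cast
      rfl
    rw [h3]
    ring
  rw [h2] at h1
  exact h1

theorem sum_sel {ρ : Rep} {w : Ideal ZB} {f : T2} {r : ℕ} {c : Fin r → GQ → T2}
    (hc : ∀ i, IsI ρ w f (c i)) (I : Finset (Fin r)) {u : GQ → T2} (hu : IsI ρ w f u) :
    IsI ρ w f fun σ => ∑ i ∈ I, c i σ + u σ := by
  have h1 : (∑ i ∈ I, (fun σ => toV (c i σ))) + (fun σ => toV (u σ)) ∈ Sel ρ w f :=
    Submodule.add_mem _ (Submodule.sum_mem _ fun i _ => hc i) hu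
  have h2 : (∑ i ∈ I, (fun σ => toV (c i σ))) + (fun σ => toV (u σ)) =
      fun σ => toV (∑ i ∈ I, c i σ + u σ) := by
    funext σ
    rw [Pi.add_apply, Finset.sum_apply, toV_add]
    congr 1
    classical
    induction I using Finset.induction_on with
    | empty => simp [toV_zero]
    | insert a I ha ih => 
      rw [Finset.sum_insert ha, Finset.sum_insert ha, toV_add, ih]
      exact Submodule.add_mem _ (Submodule.sum_mem _ fun i _ => hc i) hu
  rw [h2] at h1
  exact h1

theorem not_two_dvd_one : ¬ (2 : ℤ_[2]) ∣ 1 := by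
  intro h
  have h1 := (toZMod_zero_iff 1).2 h
  rw [map_one] at h1
  exact one_ne_zero h1

theorem t_CNT : S_CNT := by
  classical
  intro b ρ w f L σ₀ r c τ k S hD hρ h4 hc hc0 hck hSf hS
  -- the vectors
  set tv : (Fin 2 → Bool) → T2 := fun e i => if e i then 1 else 0 with htv
  choose u hu using fun (e : Fin 2 → Bool) (σ : GQ) => hD.two σ (tv e)
  set CC : (Fin 2 → Bool) × Finset (Fin r) → GQ → T2 := fun p σ => ∑ i ∈ p.2, c i σ + u p.1 σ
    with hCC
  have hI : ∀ p, IsI ρ w f (CC p) := fun p => sum_sel hc p.2 (half_sel hρ w f (hu p.1))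
  choose x hxS hx using fun p => hS (CC p) (hI p)
  have hcong : ∀ p p', x p = x p' → ∀ σ i, (2 : ℤ_[2]) ∣ CC p σ i - CC p' σ i := by
    intro p p' hpp σ
    have h1 : ∀ j, pr (L j) (CC p σ - CC p' σ) = 0 := by
      intro j
      obtain ⟨y, hy⟩ := exists_root (x p j)
      have h2 := (hx p).2 j σ (Set.mem_univ _) y hy
      rw [hpp] at hy
      have h3 := (hx p').2 j σ (Set.mem_univ _) y hy
      rw [pr_sub]
      have h4 : pr (L j) (CC p σ) = 0 ↔ pr (L j) (CC p' σ) = 0 := h2.symm.trans h3
      have key : ∀ a b : ZMod 2, (a = 0 ↔ b = 0) → a - b = 0 := by decide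
      exact key _ _ h4
    exact eq_pr hD h1
  have hinj : Function.Injective x := by
    rintro ⟨e, I⟩ ⟨e', I'⟩ hpp
    have h1 := hcong _ _ hpp
    have hu0 : ∀ e : Fin 2 → Bool, ∀ i, ∃ m : ℤ_[2], u e σ₀ i = -(tv e i) + 2 * m := by
      intro e i
      choose m hm using h4
      refine ⟨∑ j, m i j * tv e j, ?_⟩
      have h2 := congrFun (hu e σ₀) i
      have h3 : (ρ σ₀ *ᵥ tv e) i = -(tv e i) + 4 * ∑ j, m i j * tv e j := by
        have h5 : ((ρ σ₀ + 1) *ᵥ tv e) i = 4 * ∑ j, m i j * tv e j := by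
          simp only [Matrix.mulVec, dotProduct, Finset.mul_sum]
          refine Finset.sum_congr rfl fun j _ => ?_
          rw [hm i j, mul_assoc]
        rw [Matrix.add_mulVec, Matrix.one_mulVec, Pi.add_apply] at h5
        linear_combination h5
      rw [h3, Pi.add_apply, Pi.smul_apply, smul_eq_mul] at h2
      have h6 : (2 : ℤ_[2]) * u e σ₀ i = 2 * (-(tv e i) + 2 * ∑ j, m i j * tv e j) := by
        linear_combination -h2
      exact mul_left_cancel₀ two_ne_zero h6
    have he : e = e' := by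
      funext i
      by_contra hne
      have h2 := h1 σ₀ i
      simp only [hCC, hc0, Finset.sum_const_zero, zero_add] at h2
      obtain ⟨m, hm⟩ := hu0 e i
      obtain ⟨m', hm'⟩ := hu0 e' i
      rw [hm, hm'] at h2
      have h3 : (2 : ℤ_[2]) ∣ tv e i - tv e' i := by
        have h5 : tv e i - tv e' i = 2 * (m - m') -
            ((-(tv e i) + 2 * m) - (-(tv e' i) + 2 * m')) := by ring
        rw [h5]
        exact dvd_sub (dvd_mul_right _ _) h2
      rw [htv] at h3
      simp only at h3
      cases he1 : e i <;> cases he2 : e' i <;> rw [he1, he2] at h3 <;>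
        simp only [if_true, if_false, Bool.false_eq_true, sub_zero, zero_sub, dvd_neg] at h3
      · exact hne (by rw [he1, he2])
      · exact not_two_dvd_one h3
      · exact not_two_dvd_one h3
      · exact hne (by rw [he1, he2])
    subst he
    have hII : I = I' := by
      ext j
      have h2 := h1 (τ j) (k j)
      simp only [hCC, Pi.add_apply, Finset.sum_apply, hck, Finset.sum_ite_eq', add_sub_add_right_eq_sub] at h2
      by_cases hj : j ∈ I <;> by_cases hj' : j ∈ I'
      · simp [hj, hj']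
      · simp only [hj, hj', if_true, if_false, sub_zero] at h2
        exact absurd h2 not_two_dvd_one
      · simp only [hj, hj', if_true, if_false, zero_sub, dvd_neg] at h2
        exact absurd h2 not_two_dvd_one
      · simp [hj, hj']
    rw [hII]
  have hcard : (Set.univ : Set ((Fin 2 → Bool) × Finset (Fin r))).ncard = 2 ^ (2 + r) := by
    rw [Set.ncard_univ, Nat.card_eq_fintype_card, Fintype.card_prod, Fintype.card_fun,
      Fintype.card_finset, Fintype.card_bool, Fintype.card_fin, Fintype.card_fin, pow_add]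
  rw [← hcard]
  exact Set.ncard_le_ncard_of_injOn x (fun p _ => hxS p) hinj.injOn hSf

end Pool.Agent.Q299.HD
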