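import Pool.Agent.Q299.HD.TC
import Pool.Agent.Y723.PT.Lg

/-!
# Project HD, job REAL: the real place

Proof by helper299.
-/

set_option autoImplicit false

namespace Pool.Agent.Q299.HD

open Pool.Agent.Q274.HD
open Pool.Agent.TH344.JG (LocJ)
open Q182.JQ.ELL (H3_real)
open scoped Matrix ComplexConjugate

/-! ### integral vectors -/

theorem toV_add (t t' : T2) : toV (t + t') = toV t + toV t' := by
  funext i
  simp [toV]

theorem toV_inj {t t' : T2} (h : toV t = toV t') : t = t' := by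
  funext i
  have h1 := congrFun h i
  exact Subtype.ext h1

theorem toV_zero : toV 0 = 0 := by
  funext i
  simp [toV]

theorem act_toV (ρ : Rep) (σ : GQ) (t : T2) : act ρ σ (toV t) = toV (ρ σ *ᵥ t) := by
  funext i
  simp only [act, toV, Matrix.mulVec, dotProduct]
  rfl

/-- the cocycle relation for integral cocycles -/
theorem coc_int {ρ : Rep} {w : Ideal ZB} {f : T2} {c : GQ → T2} (h : IsI ρ w f c) (σ τ : GQ) :
    c (σ * τ) = c σ + ρ σ *ᵥ c τ := by
  apply toV_inj
  rw [toV_add, ← act_toV]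
  exact h.coc σ τ

theorem coc_one {ρ : Rep} {w : Ideal ZB} {f : T2} {c : GQ → T2} (h : IsI ρ w f c) : c 1 = 0 := by
  have h1 := coc_int h 1 1
  rw [mul_one, map_one, Matrix.one_mulVec] at h1
  exact left_eq_add.1 h1

/-- complex conjugation -/
theorem exists_conj : ∃ (ι : QB →+* ℂ) (τ : GQ), ∀ x : QB, ι (τ x) = conj (ι x) := by
  let ι : QB →ₐ[ℚ] ℂ := IsAlgClosed.lift
  let _ : Algebra QB ℂ := ι.toRingHom.toAlgebra
  have _ : IsScalarTower ℚ QB ℂ := IsScalarTower.of_algebraMap_eq fun x => (ι.commutes x).symm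
  let χ : ℂ ≃ₐ[ℚ] ℂ := Complex.conjAe.restrictScalars ℚ
  refine ⟨ι.toRingHom, χ.restrictNormal QB, fun x => ?_⟩
  exact χ.restrictNormal_commutes QB x

theorem t_REAL : S_REAL := by
  classical
  intro hTC b ρ w f L c x hL
  obtain ⟨ι, τ, hτ⟩ := exists_conj
  have hττ : τ * τ = 1 := by
    ext x
    apply ι.injective
    show ι (τ (τ x)) = ι x
    rw [hτ, hτ, Complex.conj_conj]
  have h1 : ρ τ *ᵥ c τ = -c τ := by
    have h2 := coc_int hL.sel τ τ
    rw [hττ, coc_one hL.sel] at h2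
    exact (neg_eq_of_add_eq_zero_right h2.symm).symm
  have h2 : ρ τ *ᵥ (-c τ) = -c τ + (2 : ℤ_[2]) • c τ := by
    rw [Matrix.mulVec_neg, h1, neg_neg, two_smul]
    abel
  choose u hu using fun σ => hL.dat.two σ (-c τ)
  have h3 : u τ = c τ := by
    have h4 := hu τ
    rw [h2] at h4
    exact two_inj (add_left_cancel h4).symm
  obtain ⟨x', hx', hloc⟩ := hTC b ρ L hL.inj hL.dat (-c τ) u hu
  have h5 := hloc ℝ H3_real
  rw [Pool.Agent.Y723.PT.locJ_iff] at h5 ⊢
  refine h5.congr (fun i => ?_) fun i => ?_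
  · exact_mod_cast hx'.1 i
  · have hxi : x i ≠ 0 := hL.cls.1 i
    have hxi' : x' i ≠ 0 := hx'.1 i
    obtain ⟨y, hy⟩ := exists_root (x i)
    obtain ⟨y', hy'⟩ := exists_root (x' i)
    have h6 := hL.cls.2 i τ (Set.mem_univ _) y hy
    have h7 := hx'.2 i τ (Set.mem_univ _) y' hy'
    rw [h3] at h7
    have h8 : τ (y * y') = y * y' := (mul_fix τ hxi hxi' hy hy').2 (h6.trans h7.symm)
    have h9 : conj (ι (y * y')) = ι (y * y') := by rw [← hτ, h8]
    obtain ⟨r, hr⟩ := Complex.conj_eq_iff_real.1 h9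
    refine ⟨r, ?_⟩
    have h10 : ((r : ℝ) : ℂ) * r = ((x' i : ℤ) : ℂ) * ((x i : ℤ) : ℂ) := by
      rw [← hr, ← map_mul]
      have h11 : y * y' * (y * y') = ((x' i : ℤ) : QB) * ((x i : ℤ) : QB) := by
        rw [← hy, ← hy']
        ring
      rw [h11, map_mul, map_intCast, map_intCast]
    have h12 : (((x' i : ℝ) * (x i : ℝ) : ℝ) : ℂ) = ((r * r : ℝ) : ℂ) := by
      push_cast
      exact h10.symm
    exact_mod_cast h12

end Pool.Agent.Q299.HD
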