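import Pool.Agent.Q299.HD.Frm

/-!
# Project HD, job TC: the class of a coboundary

Proof by helper299.
-/

set_option autoImplicit false

namespace Pool.Agent.Q299.HD

open Pool.Agent.Q274.HD
open Pool.Agent.TH344.JG (LocJ)
open Q182.JQ.ELL (H3 Pt Pt_one Pt_tor pt_LocJ)
open scoped Matrix

/-! ### square roots -/

theorem sq_or (σ : GQ) {y : QB} {z : ℤ} (h : y ^ 2 = ((z : ℤ) : QB)) : σ y = y ∨ σ y = -y := by
  have h1 : (σ y) ^ 2 = y ^ 2 := by
    rw [← map_pow, h, map_intCast]
  exact sq_eq_sq_iff_eq_or_eq_neg.1 h1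

theorem neg_ne {y : QB} (hy : y ≠ 0) : -y ≠ y := by
  intro h
  have h1 : (2 : QB) * y = 0 := by
    linear_combination -h
  rcases mul_eq_zero.1 h1 with h2 | h2
  · exact two_ne_zero h2
  · exact hy h2

theorem root_ne {y : QB} {z : ℤ} (hz : z ≠ 0) (h : y ^ 2 = ((z : ℤ) : QB)) : y ≠ 0 := by
  rintro rfl
  rw [zero_pow two_ne_zero] at h
  exact hz (by exact_mod_cast h.symm)

theorem exists_root (z : ℤ) : ∃ y : QB, y ^ 2 = ((z : ℤ) : QB) :=
  IsAlgClosed.exists_pow_nat_eq _ two_pos

theorem fix_iff (σ : GQ) {y y' : QB} (h : y ^ 2 = y' ^ 2) : σ y = y ↔ σ y' = y' := by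
  rcases sq_eq_sq_iff_eq_or_eq_neg.1 h with h1 | h1
  · rw [h1]
  · rw [h1, map_neg, neg_inj]

/-- the sign of a product of square roots -/
theorem mul_fix (σ : GQ) {y y' : QB} {z z' : ℤ} (hz : z ≠ 0) (hz' : z' ≠ 0)
    (h : y ^ 2 = ((z : ℤ) : QB)) (h' : y' ^ 2 = ((z' : ℤ) : QB)) :
    σ (y * y') = y * y' ↔ (σ y = y ↔ σ y' = y') := by
  have hy := root_ne hz h
  have hy' := root_ne hz' h'
  have hyy : y * y' ≠ 0 := mul_ne_zero hy hy'
  rw [map_mul]
  rcases sq_or σ h with h1 | h1 <;> rcases sq_or σ h' with h2 | h2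
  · rw [h1, h2]
    simp
  · rw [h1, h2]
    have h3 := neg_ne hy'
    have h4 := neg_ne hyy
    simp [h3, h4]
  · rw [h1, h2]
    have h3 := neg_ne hy
    have h4 := neg_ne hyy
    simp [h3, h4]
  · rw [h1, h2, neg_mul_neg]
    have h3 := neg_ne hy
    have h4 := neg_ne hy'
    simp [h3, h4]

/-- the other two indices -/
theorem others (i : Fin 3) : ∃ j k : Fin 3, i ≠ j ∧ i ≠ k ∧ j ≠ k ∧
    (∀ {M : Type} [CommMonoid M] (f : Fin 3 → M), ∏ l ∈ Finset.univ.erase i, f l = f j * f k) ∧
    ∀ g : Fin 3 → ZMod 2, g 0 + g 1 + g 2 = 0 → g i = g j + g k := by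
  have e0 : (Finset.univ : Finset (Fin 3)).erase 0 = {1, 2} := by decide
  have e1 : (Finset.univ : Finset (Fin 3)).erase 1 = {0, 2} := by decide
  have e2 : (Finset.univ : Finset (Fin 3)).erase 2 = {0, 1} := by decide
  have key : ∀ a b c : ZMod 2, (a + b + c = 0 → a = b + c) ∧ (a + b + c = 0 → b = a + c) ∧
      (a + b + c = 0 → c = a + b) := by decide
  fin_cases i
  · refine ⟨1, 2, by decide, by decide, by decide, fun f => ?_, fun g hg => (key _ _ _).1 hg⟩
    show ∏ l ∈ Finset.univ.erase 0, f l = _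
    rw [e0, Finset.prod_pair (by decide)]
  · refine ⟨0, 2, by decide, by decide, by decide, fun f => ?_, fun g hg => (key _ _ _).2.1 hg⟩
    show ∏ l ∈ Finset.univ.erase 1, f l = _
    rw [e1, Finset.prod_pair (by decide)]
  · refine ⟨0, 1, by decide, by decide, by decide, fun f => ?_, fun g hg => (key _ _ _).2.2 hg⟩
    show ∏ l ∈ Finset.univ.erase 2, f l = _
    rw [e2, Finset.prod_pair (by decide)]

theorem t_TC : S_TC := by
  classical
  intro b ρ L hb hD t u hu
  by_cases ht : ∀ k, (2 : ℤ_[2]) ∣ t k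
  · -- the zero class
    choose t' ht' using ht
    have e1 : t = (2 : ℤ_[2]) • t' := by
      funext k
      exact ht' k
    refine ⟨fun _ => 1, ⟨fun _ => one_ne_zero, fun j σ _ y hy => ?_⟩, fun K _ _ hK => ?_⟩
    · have h1 : pr (L j) (u σ) = 0 := by
        obtain ⟨u', hu'⟩ := hD.two σ t'
        have h2 := hu σ
        rw [e1, Matrix.mulVec_smul, hu', smul_add] at h2
        have h3 := add_left_cancel h2
        rw [← two_inj h3, pr_two]
      refine ⟨fun _ => h1, fun _ => ?_⟩
      have h2 : y = 1 ∨ y = -1 := by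
        have h3 : y ^ 2 = 1 := by
          rw [hy]
          simp
        exact sq_eq_one_iff.1 h3
      rcases h2 with h2 | h2
      · rw [h2, map_one]
      · rw [h2, map_neg, map_one]
    · refine pt_LocJ ?_
      have h1 := Pt_one hK (fun i => ((b i : ℤ) : K))
      simpa using h1
  · have ht' : ∃ k, ¬ (2 : ℤ_[2]) ∣ t k := not_forall.1 ht
    obtain ⟨i, hi⟩ := ex_pr hD ht'
    obtain ⟨j, k, hij, hik, hjk, hprod, hsum⟩ := others i
    have hbne : ∀ l, i ≠ l → b i - b l ≠ 0 := fun l hl h => hl (hb (sub_eq_zero.1 h))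
    have hkum : ∀ l, i ≠ l → ∀ σ (y : QB), y ^ 2 = ((b i - b l : ℤ) : QB) →
        (σ y = y ↔ pr (L l) (u σ) = 0) := fun l hl σ y hy =>
      hD.kum i l hl t (u σ) σ ht' hi (hu σ) y hy
    refine ⟨fun l => if l = i then (b i - b j) * (b i - b k) else b i - b l, ⟨fun l => ?_, ?_⟩,
      fun K _ _ hK => ?_⟩
    · show (if l = i then (b i - b j) * (b i - b k) else b i - b l) ≠ 0
      split_ifs with hl
      · exact mul_ne_zero (hbne j hij) (hbne k hik)
      · exact hbne l fun h => hl h.symm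
    · intro l σ _ y hy
      by_cases hl : l = i
      · subst hl
        simp only [if_true] at hy
        obtain ⟨y1, h1⟩ := exists_root (b l - b j)
        obtain ⟨y2, h2⟩ := exists_root (b l - b k)
        have h3 : y ^ 2 = (y1 * y2) ^ 2 := by
          rw [hy, mul_pow, h1, h2]
          push_cast
          ring
        rw [fix_iff σ h3, mul_fix σ (hbne j hij) (hbne k hik) h1 h2, hkum j hij σ y1 h1,
          hkum k hik σ y2 h2]
        have h4 := hsum (fun m => pr (L m) (u σ)) (sum_pr hD (u σ))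
        rw [h4]
        have key : ∀ a b : ZMod 2, ((a = 0 ↔ b = 0) ↔ a + b = 0) := by decide
        exact key _ _
      · simp only [hl, if_false] at hy
        exact hkum l (fun h => hl h.symm) σ y hy
    · refine pt_LocJ ?_
      have he : Function.Injective fun l => ((b l : ℤ) : K) := fun x y hxy =>
        hb (Int.cast_injective (α := K) hxy)
      have h1 := Pt_tor hK he i
      refine (congrArg (Pt fun l => ((b l : ℤ) : K)) ?_).mp h1
      funext l
      by_cases hl : l = i
      · simp only [hl, if_true]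
        unfold Q182.JQ.ELL.D
        rw [hprod]
        push_cast
        rfl
      · simp only [hl, if_false]
        push_cast
        rfl

end Pool.Agent.Q299.HD
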