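import Pool.Agent.Q274.HD.Stm2

/-!
# Project HD: linear forms modulo `2`

Proof by helper299.
-/

set_option autoImplicit false

namespace Pool.Agent.Q299.HD

open Pool.Agent.Q274.HD

/-- the sum of the three nonzero forms is zero -/
theorem sumL : ∀ L : Fin 3 → Fin 2 → ZMod 2, (∀ j, L j ≠ 0) → Function.Injective L →
    ∀ v : Fin 2 → ZMod 2, ∑ k, L 0 k * v k + ∑ k, L 1 k * v k + ∑ k, L 2 k * v k = 0 := by
  decide +kernel

/-- a nonzero vector is killed by one of the forms -/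
theorem exL : ∀ L : Fin 3 → Fin 2 → ZMod 2, (∀ j, L j ≠ 0) → Function.Injective L →
    ∀ v : Fin 2 → ZMod 2, v ≠ 0 → ∃ i, ∑ k, L i k * v k = 0 := by
  decide +kernel

/-- only the zero vector is killed by two of the forms -/
theorem twoL : ∀ L : Fin 3 → Fin 2 → ZMod 2, (∀ j, L j ≠ 0) → Function.Injective L →
    ∀ v : Fin 2 → ZMod 2, ∀ i j, i ≠ j → ∑ k, L i k * v k = 0 → ∑ k, L j k * v k = 0 → v = 0 := by
  decide +kernel

/-- reduction modulo `2` -/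
noncomputable def pm (t : T2) : Fin 2 → ZMod 2 := fun k => PadicInt.toZMod (p := 2) (t k)

theorem pr_pm (l : Fin 2 → ZMod 2) (t : T2) : pr l t = ∑ k, l k * pm t k := rfl

theorem pr_add (l : Fin 2 → ZMod 2) (t t' : T2) : pr l (t + t') = pr l t + pr l t' := by
  simp only [pr, Pi.add_apply, map_add, mul_add, Finset.sum_add_distrib]

theorem pr_sub (l : Fin 2 → ZMod 2) (t t' : T2) : pr l (t - t') = pr l t - pr l t' := by
  simp only [pr, Pi.sub_apply, map_sub, mul_sub, Finset.sum_sub_distrib]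

theorem pr_two (l : Fin 2 → ZMod 2) (t : T2) : pr l ((2 : ℤ_[2]) • t) = 0 := by
  have h : (2 : ZMod 2) = 0 := by decide
  simp only [pr, Pi.smul_apply, smul_eq_mul, map_mul, map_ofNat, h, zero_mul, mul_zero,
    Finset.sum_const_zero]

theorem toZMod_zero_iff (z : ℤ_[2]) : PadicInt.toZMod (p := 2) z = 0 ↔ (2 : ℤ_[2]) ∣ z := by
  rw [← RingHom.mem_ker, PadicInt.ker_toZMod, PadicInt.maximalIdeal_eq_span_p,
    Ideal.mem_span_singleton]
  norm_num

theorem pm_zero_iff (t : T2) : pm t = 0 ↔ ∀ k, (2 : ℤ_[2]) ∣ t k := by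
  rw [funext_iff]
  exact forall_congr' fun k => toZMod_zero_iff (t k)

theorem sum_pr {b : Fin 3 → ℤ} {ρ : Rep} {L : Fin 3 → Fin 2 → ZMod 2} (hD : Dat b ρ L) (t : T2) :
    pr (L 0) t + pr (L 1) t + pr (L 2) t = 0 := sumL L hD.ne hD.inj (pm t)

theorem ex_pr {b : Fin 3 → ℤ} {ρ : Rep} {L : Fin 3 → Fin 2 → ZMod 2} (hD : Dat b ρ L) {t : T2}
    (ht : ∃ k, ¬ (2 : ℤ_[2]) ∣ t k) : ∃ i, pr (L i) t = 0 := by
  refine exL L hD.ne hD.inj (pm t) fun h => ?_
  obtain ⟨k, hk⟩ := ht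
  exact hk ((pm_zero_iff t).1 h k)

/-- if all forms agree modulo `2` the vectors agree modulo `2` -/
theorem eq_pr {b : Fin 3 → ℤ} {ρ : Rep} {L : Fin 3 → Fin 2 → ZMod 2} (hD : Dat b ρ L) {t : T2}
    (h : ∀ j, pr (L j) t = 0) : ∀ k, (2 : ℤ_[2]) ∣ t k :=
  (pm_zero_iff t).1 (twoL L hD.ne hD.inj (pm t) 0 1 (by decide) (h 0) (h 1))

theorem two_inj {t t' : T2} (h : (2 : ℤ_[2]) • t = (2 : ℤ_[2]) • t') : t = t' :=
  smul_right_injective T2 (two_ne_zero) h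

end Pool.Agent.Q299.HD
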